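import Mathlib
import Pool.Agent.H92.SG.Stmts

namespace Pool.Agent.H79.SG

open Pool.Agent.H92.SG

theorem dih_mul_apply (A : Type) [CommRing A] (x y : B) (a : ℕ → A) :
    dih A (x * y) a = dih A x (dih A y a) := by
  rw [map_mul]; rfl

theorem dih_inv_right (A : Type) [CommRing A] (x : B) (a : ℕ → A) :
    dih A x (dih A x⁻¹ a) = a := by
  rw [← dih_mul_apply, mul_inv_cancel, map_one]; rfl

theorem dih_inv_left (A : Type) [CommRing A] (x : B) (a : ℕ → A) :
    dih A x⁻¹ (dih A x a) = a := by
  rw [← dih_mul_apply, inv_mul_cancel, map_one]; rfl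

theorem alt_sigma (A : Type) [CommRing A] (N i : ℕ) (hi : i + 1 < N) (a : ℕ → A) :
    ∑ j ∈ Finset.range N, (-1 : A) ^ j *
      (if j = i then a (i + 1) else if j = i + 1 then 2 * a (i + 1) - a i else a j) =
    ∑ j ∈ Finset.range N, (-1 : A) ^ j * a j := by
  rw [← sub_eq_zero, ← Finset.sum_sub_distrib]
  have h1 : ({i, i + 1} : Finset ℕ) ⊆ Finset.range N := by
    intro j hj
    simp only [Finset.mem_insert, Finset.mem_singleton] at hj
    rw [Finset.mem_range]; omega
  rw [← Finset.sum_subset h1]
  · rw [Finset.sum_pair (by omega)]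
    simp only [if_true]
    rw [if_neg (by omega : ¬ (i + 1 = i))]
    ring
  · intro j _ hj
    simp only [Finset.mem_insert, Finset.mem_singleton, not_or] at hj
    rw [if_neg hj.1, if_neg hj.2, sub_self]

theorem DIHB_thm (hA : DihA) (_hP : PermStmt) : DihB where
  loc1 := by
    intro A _ N x hx
    refine Bn_induction (p := fun x => ∀ (a : ℕ → A) (i : ℕ), N ≤ i → dih A x a i = a i)
      ?_ ?_ ?_ ?_ hx
    · intro a i _
      rw [map_one]; rfl
    · intro i hi a j hj
      rw [hA.σ_apply A i a]
      simp only
      rw [if_neg (by omega), if_neg (by omega)]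
    · intro x _ y _ h1 h2 a i hi
      rw [dih_mul_apply, h1 _ i hi, h2 _ i hi]
    · intro x _ h1 a i hi
      have := h1 (dih A x⁻¹ a) i hi
      rw [dih_inv_right] at this
      exact this.symm
  loc2 := by
    intro A _ N x hx
    have key : (∀ a a' : ℕ → A, (∀ i < N, a i = a' i) → ∀ i < N, dih A x a i = dih A x a' i) ∧
        (∀ a a' : ℕ → A, (∀ i < N, a i = a' i) → ∀ i < N, dih A x⁻¹ a i = dih A x⁻¹ a' i) := by
      refine Bn_induction (p := fun x =>
        (∀ a a' : ℕ → A, (∀ i < N, a i = a' i) → ∀ i < N, dih A x a i = dih A x a' i) ∧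
        (∀ a a' : ℕ → A, (∀ i < N, a i = a' i) → ∀ i < N, dih A x⁻¹ a i = dih A x⁻¹ a' i))
        ?_ ?_ ?_ ?_ hx
      · refine ⟨?_, ?_⟩
        · intro a a' h i hi
          rw [map_one]; exact h i hi
        · intro a a' h i hi
          rw [inv_one, map_one]; exact h i hi
      · intro i hi
        refine ⟨?_, ?_⟩
        · intro a a' h j hj
          rw [hA.σ_apply A i a, hA.σ_apply A i a']
          simp only
          rw [h i (by omega), h (i + 1) (by omega), h j hj]
        · intro a a' h j hj
          rw [hA.σ_inv_apply A i a, hA.σ_inv_apply A i a']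
          simp only
          rw [h i (by omega), h (i + 1) (by omega), h j hj]
      · intro x _ y _ h1 h2
        refine ⟨?_, ?_⟩
        · intro a a' h
          rw [dih_mul_apply, dih_mul_apply]
          exact h1.1 _ _ (h2.1 _ _ h)
        · intro a a' h
          rw [mul_inv_rev, dih_mul_apply, dih_mul_apply]
          exact h2.2 _ _ (h1.2 _ _ h)
      · intro x _ h1
        refine ⟨h1.2, ?_⟩
        rw [inv_inv]
        exact h1.1
    exact key.1
  alt := by
    intro A _ N x hx
    refine Bn_induction (p := fun x => ∀ a : ℕ → A,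
      ∑ i ∈ Finset.range N, (-1 : A) ^ i * dih A x a i = ∑ i ∈ Finset.range N, (-1 : A) ^ i * a i)
      ?_ ?_ ?_ ?_ hx
    · intro a
      rw [map_one]; rfl
    · intro i hi a
      rw [hA.σ_apply A i a]
      exact alt_sigma A N i hi a
    · intro x _ y _ h1 h2 a
      rw [dih_mul_apply, h1, h2]
    · intro x _ h1 a
      have := h1 (dih A x⁻¹ a)
      rw [dih_inv_right] at this
      exact this.symm
  two := by
    intro A _ h2 x
    have hneg : ∀ r : A, 2 * r - r = r := by intro r; ring
    refine B_induction (p := fun x => ∀ (a : ℕ → A) (i : ℕ), dih A x a (perm x i) = a i)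
      ?_ ?_ ?_ ?_ x
    · intro a i
      rw [map_one, map_one]; rfl
    · intro j a i
      rw [hA.σ_apply A j a, perm_σ]
      simp only
      by_cases h : i = j
      · subst h
        rw [Equiv.swap_apply_left, if_neg (by omega), if_pos rfl]
        rw [h2, zero_mul, zero_sub]
        have : a i + a i = 0 := by rw [← two_mul, h2, zero_mul]
        exact (eq_neg_of_add_eq_zero_left this).symm
      · by_cases h' : i = j + 1
        · subst h'
          rw [Equiv.swap_apply_right, if_pos rfl]
        · rw [Equiv.swap_apply_of_ne_of_ne h h', if_neg h, if_neg h']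
    · intro x y hx hy a i
      rw [dih_mul_apply, map_mul, Equiv.Perm.mul_apply, hx, hy]
    · intro x hx a i
      have := hx (dih A x⁻¹ a) (perm x⁻¹ i)
      rw [dih_inv_right] at this
      rw [← this, ← Equiv.Perm.mul_apply, ← map_mul, mul_inv_cancel, map_one]
      rfl

end Pool.Agent.H79.SG
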